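import Mathlib

set_option autoImplicit false

/-! Halving colourings of uniform hypergraphs: pairing of the vertices and the local lemma
(the same file content as the proof of the frozen statement S07181, without reserved imports). -/

namespace Pool.Agent.Lib.MP_0dd31c_co.Core

open Finset

/-! ### The symmetric local lemma, in counting form -/

/-- `good bad Om S` : the outcomes avoiding all bad events indexed by `S`. -/
def good {Ω β : Type} [DecidableEq Ω] (Om : Finset Ω) (bad : β → Finset Ω) (S : Finset β) :
    Finset Ω :=
  Om.filter (fun w => ∀ B ∈ S, w ∉ bad B)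

theorem lll_aux {Ω β : Type} [DecidableEq Ω] [DecidableEq β] (Om : Finset Ω)
    (bad : β → Finset Ω) (F : Finset β) (N : β → Finset β) (p : ℝ) (d : ℝ) (hp : 0 ≤ p)
    (hd : ∀ A ∈ F, ((N A).card : ℝ) ≤ d)
    (hpd : 4 * p * d ≤ 1)
    (hind : ∀ A ∈ F, ∀ S ⊆ F, Disjoint S (N A) → A ∉ S →
      (((good Om bad S).filter (fun w => w ∈ bad A)).card : ℝ) ≤ p * (good Om bad S).card) :
    ∀ k : ℕ, ∀ S ⊆ F, S.card = k → ∀ A ∈ F, A ∉ S →
      (((good Om bad S).filter (fun w => w ∈ bad A)).card : ℝ) ≤
        2 * p * (good Om bad S).card := by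
  intro k
  induction k using Nat.strong_induction_on with
  | _ k ih =>
    intro S hSF hSk A hA hAS
    set S1 := S.filter (fun B => B ∈ N A) with hS1
    set S2 := S.filter (fun B => B ∉ N A) with hS2
    have hS2F : S2 ⊆ F := (filter_subset _ _).trans hSF
    have hS2S : S2 ⊆ S := filter_subset _ _
    have hdis : Disjoint S2 (N A) := by
      rw [Finset.disjoint_left]
      intro B hB
      exact (mem_filter.1 hB).2
    have hAS2 : A ∉ S2 := fun h => hAS (hS2S h)
    have h2 := hind A hA S2 hS2F hdis hAS2
    have hmono : ((good Om bad S).filter (fun w => w ∈ bad A)).card ≤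
        ((good Om bad S2).filter (fun w => w ∈ bad A)).card := by
      apply card_le_card
      intro w hw
      have hw1 := mem_filter.1 hw
      have hw2 := mem_filter.1 hw1.1
      exact mem_filter.2 ⟨mem_filter.2 ⟨hw2.1, fun B hB => hw2.2 B (hS2S hB)⟩, hw1.2⟩
    have hmonoR : (((good Om bad S).filter (fun w => w ∈ bad A)).card : ℝ) ≤
        (((good Om bad S2).filter (fun w => w ∈ bad A)).card : ℝ) := Nat.cast_le.2 hmono
    by_cases hne : S1 = ∅
    · have hSS2 : S = S2 := by
        ext B
        constructor
        · intro hB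
          rw [hS2, mem_filter]
          refine ⟨hB, fun hBN => ?_⟩
          have : B ∈ S1 := by rw [hS1, mem_filter]; exact ⟨hB, hBN⟩
          rw [hne] at this
          exact absurd this (notMem_empty B)
        · intro hB; exact hS2S hB
      rw [hSS2]
      have h0 : 0 ≤ p * ((good Om bad S2).card : ℝ) := mul_nonneg hp (Nat.cast_nonneg _)
      linarith
    · have hlt : S2.card < k := by
        rw [← hSk]
        apply card_lt_card
        refine ⟨hS2S, fun hsub => ?_⟩
        obtain ⟨B, hB⟩ := Finset.nonempty_iff_ne_empty.2 hne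
        have hB' := mem_filter.1 hB
        have := hsub hB'.1
        exact (mem_filter.1 this).2 hB'.2
      -- lower bound on good S
      have hsub : good Om bad S2 ⊆ good Om bad S ∪
          S1.biUnion (fun B => (good Om bad S2).filter (fun w => w ∈ bad B)) := by
        intro w hw
        by_cases hg : w ∈ good Om bad S
        · exact mem_union_left _ hg
        · apply mem_union_right
          have hw' := mem_filter.1 hw
          have : ∃ B ∈ S, w ∈ bad B := by
            by_contra hcon
            exact hg (mem_filter.2 ⟨hw'.1, fun B hBS hBw => hcon ⟨B, hBS, hBw⟩⟩)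
          obtain ⟨B, hBS, hBw⟩ := this
          have hBN : B ∈ N A := by
            by_contra hBN
            exact hw'.2 B (mem_filter.2 ⟨hBS, hBN⟩) hBw
          exact mem_biUnion.2 ⟨B, mem_filter.2 ⟨hBS, hBN⟩, mem_filter.2 ⟨hw, hBw⟩⟩
      have hcard : ((good Om bad S2).card : ℝ) ≤ (good Om bad S).card +
          ∑ B ∈ S1, (((good Om bad S2).filter (fun w => w ∈ bad B)).card : ℝ) := by
        have h1 := (card_le_card hsub).trans (card_union_le _ _)
        have h3 := card_biUnion_le (s := S1)
          (t := fun B => (good Om bad S2).filter (fun w => w ∈ bad B))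
        have h4 : (good Om bad S2).card ≤ (good Om bad S).card +
          ∑ B ∈ S1, ((good Om bad S2).filter (fun w => w ∈ bad B)).card := by omega
        exact_mod_cast h4
      have hsum : ∑ B ∈ S1, (((good Om bad S2).filter (fun w => w ∈ bad B)).card : ℝ) ≤
          (S1.card : ℝ) * (2 * p * (good Om bad S2).card) := by
        rw [← nsmul_eq_mul]
        apply sum_le_card_nsmul
        intro B hB
        have hB' := mem_filter.1 hB
        exact ih S2.card hlt S2 hS2F rfl B (hSF hB'.1) (fun h => (mem_filter.1 h).2 hB'.2)
      have hS1d : (S1.card : ℝ) ≤ d := by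
        refine le_trans ?_ (hd A hA)
        have : S1.card ≤ (N A).card := by
          apply card_le_card
          intro B hB
          exact (mem_filter.1 hB).2
        exact_mod_cast this
      have hg2 : (0 : ℝ) ≤ (good Om bad S2).card := by positivity
      have hhalf : (S1.card : ℝ) * (2 * p * (good Om bad S2).card) ≤
          (1 / 2) * (good Om bad S2).card := by
        have h5 : (S1.card : ℝ) * (2 * p) ≤ 1 / 2 := by
          have h6 : (S1.card : ℝ) * (2 * p) ≤ d * (2 * p) :=
            mul_le_mul_of_nonneg_right hS1d (by positivity)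
          linarith
        calc (S1.card : ℝ) * (2 * p * (good Om bad S2).card)
            = ((S1.card : ℝ) * (2 * p)) * (good Om bad S2).card := by ring
          _ ≤ (1 / 2) * (good Om bad S2).card := mul_le_mul_of_nonneg_right h5 hg2
      have hlow : ((good Om bad S2).card : ℝ) ≤ 2 * (good Om bad S).card := by linarith
      calc (((good Om bad S).filter (fun w => w ∈ bad A)).card : ℝ)
          ≤ p * (good Om bad S2).card := hmonoR.trans h2
        _ ≤ p * (2 * (good Om bad S).card) := mul_le_mul_of_nonneg_left hlow hp
        _ = 2 * p * (good Om bad S).card := by ring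

theorem lll {Ω β : Type} [DecidableEq Ω] [DecidableEq β] (Om : Finset Ω) (hOm : Om.Nonempty)
    (bad : β → Finset Ω) (F : Finset β) (N : β → Finset β) (p : ℝ) (d : ℝ) (hp : 0 ≤ p)
    (hp2 : 2 * p < 1)
    (hd : ∀ A ∈ F, ((N A).card : ℝ) ≤ d)
    (hpd : 4 * p * d ≤ 1)
    (hind : ∀ A ∈ F, ∀ S ⊆ F, Disjoint S (N A) → A ∉ S →
      (((good Om bad S).filter (fun w => w ∈ bad A)).card : ℝ) ≤ p * (good Om bad S).card) :
    (good Om bad F).Nonempty := by
  have haux := lll_aux Om bad F N p d hp hd hpd hind
  have key : ∀ S : Finset β, S ⊆ F → (good Om bad S).Nonempty := by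
    intro S
    induction S using Finset.induction_on with
    | empty =>
      intro _
      obtain ⟨w, hw⟩ := hOm
      exact ⟨w, mem_filter.2 ⟨hw, by simp⟩⟩
    | insert A S hAS ihS =>
      intro hsub
      have hA : A ∈ F := hsub (mem_insert_self A S)
      have hSF : S ⊆ F := (subset_insert A S).trans hsub
      have hne := ihS hSF
      have hpos : (0 : ℝ) < (good Om bad S).card := by
        exact_mod_cast Finset.card_pos.2 hne
      have h1 := haux S.card S hSF rfl A hA hAS
      by_contra hcon
      rw [Finset.not_nonempty_iff_eq_empty] at hcon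
      have hall : (good Om bad S).filter (fun w => w ∈ bad A) = good Om bad S := by
        apply filter_true_of_mem
        intro w hw
        by_contra hwA
        have : w ∈ good Om bad (insert A S) := by
          have hw' := mem_filter.1 hw
          refine mem_filter.2 ⟨hw'.1, ?_⟩
          intro B hB
          rcases mem_insert.1 hB with rfl | hB
          · exact hwA
          · exact hw'.2 B hB
        rw [hcon] at this
        exact absurd this (notMem_empty w)
      rw [hall] at h1
      have : 2 * p * ((good Om bad S).card : ℝ) < 1 * (good Om bad S).card :=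
        mul_lt_mul_of_pos_right hp2 hpos
      linarith
  exact key F (Subset.refl F)

/-! ### Flipping coins -/

/-- If `E` is invariant under changing the coins inside `T`, then fixing the coins in `T`
cuts `E` by a factor at least `2 ^ |T|`. -/
theorem flip_count (E : Finset (Finset ℕ)) (T f : Finset ℕ)
    (hE : ∀ w ∈ E, ∀ U ⊆ T, symmDiff w U ∈ E) :
    2 ^ T.card * (E.filter (fun w => w ∩ T = f)).card ≤ E.card := by
  rw [← card_powerset, ← card_product]
  apply card_le_card_of_injOn (fun x => symmDiff x.2 x.1)
  · rintro ⟨U, w⟩ hx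
    simp only [coe_product, Set.mem_prod, mem_coe, mem_powerset, mem_filter] at hx
    exact hE w hx.2.1 U hx.1
  · rintro ⟨U, w⟩ hx ⟨U', w'⟩ hx' heq
    simp only [coe_product, Set.mem_prod, mem_coe, mem_powerset, mem_filter] at hx hx'
    simp only at heq
    have h1 : ∀ i, i ∈ symmDiff w U ↔ i ∈ symmDiff w' U' := fun i => by rw [heq]
    have hw : ∀ i ∈ T, (i ∈ w ↔ i ∈ w') := by
      intro i hi
      have e1 : i ∈ w ∩ T ↔ i ∈ w' ∩ T := by rw [hx.2.2, hx'.2.2]
      simpa [hi] using e1
    have hUU : U = U' := by
      ext i
      have h1i := h1 i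
      rw [mem_symmDiff, mem_symmDiff] at h1i
      by_cases hi : i ∈ T
      · have := hw i hi
        tauto
      · have a1 : i ∉ U := fun h => hi (hx.1 h)
        have a2 : i ∉ U' := fun h => hi (hx'.1 h)
        tauto
    subst hUU
    have hww : w = w' := by
      ext i
      have h1i := h1 i
      rw [mem_symmDiff, mem_symmDiff] at h1i
      tauto
    subst hww
    rfl

/-! ### Pairing up the vertices -/

theorem pairing (V : Finset ℕ) (m : ℕ) (hm : m = V.card / 2) :
    ∃ a b : ℕ → ℕ, ∃ z : ℕ,
      (∀ i < m, a i ∈ V) ∧ (∀ i < m, b i ∈ V) ∧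
      (∀ i < m, ∀ j < m, a i = a j → i = j) ∧ (∀ i < m, ∀ j < m, b i = b j → i = j) ∧
      (∀ i < m, ∀ j < m, a i ≠ b j) ∧
      (∀ v ∈ V, v = z ∨ ∃ i < m, v = a i ∨ v = b i) := by
  classical
  obtain ⟨e, he1, he2, he3⟩ : ∃ e : ℕ → ℕ, (∀ j < V.card, e j ∈ V) ∧
      (∀ i < V.card, ∀ j < V.card, e i = e j → i = j) ∧ (∀ v ∈ V, ∃ j < V.card, e j = v) := by
    refine ⟨fun j => if h : j < V.card then V.orderEmbOfFin rfl ⟨j, h⟩ else 0, ?_, ?_, ?_⟩
    · intro j hj
      simp only [hj, dif_pos]
      exact V.orderEmbOfFin_mem rfl _
    · intro i hi j hj hij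
      simp only [hi, hj, dif_pos] at hij
      have := (V.orderEmbOfFin rfl).injective hij
      simpa using this
    · intro v hv
      have : v ∈ Set.range (V.orderEmbOfFin rfl) := by
        rw [V.range_orderEmbOfFin rfl]; exact hv
      obtain ⟨j, hj⟩ := this
      exact ⟨j.1, j.2, by simp [hj]⟩
  refine ⟨fun i => e (2 * i), fun i => e (2 * i + 1), e (V.card - 1), ?_, ?_, ?_, ?_, ?_, ?_⟩
  · intro i hi; exact he1 _ (by omega)
  · intro i hi; exact he1 _ (by omega)
  · intro i hi j hj hij
    have := he2 _ (by omega) _ (by omega) hij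
    omega
  · intro i hi j hj hij
    have := he2 _ (by omega) _ (by omega) hij
    omega
  · intro i hi j hj hij
    have := he2 _ (by omega) _ (by omega) hij
    omega
  · intro v hv
    obtain ⟨j, hj, rfl⟩ := he3 v hv
    by_cases hj2 : j / 2 < m
    · right
      rcases Nat.even_or_odd' j with ⟨i, rfl | rfl⟩
      · exact ⟨i, by omega, Or.inl rfl⟩
      · exact ⟨i, by omega, Or.inr rfl⟩
    · left
      have : j = V.card - 1 := by omega
      rw [this]

/-- The red set attached to the outcome `w` of the coins. -/
def red (a b : ℕ → ℕ) (m : ℕ) (w : Finset ℕ) : Finset ℕ :=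
  (range m).image (fun i => if i ∈ w then a i else b i)

theorem card_red (a b : ℕ → ℕ) (m : ℕ) (w : Finset ℕ)
    (haa : ∀ i < m, ∀ j < m, a i = a j → i = j) (hbb : ∀ i < m, ∀ j < m, b i = b j → i = j)
    (hab : ∀ i < m, ∀ j < m, a i ≠ b j) : (red a b m w).card = m := by
  unfold red
  rw [card_image_of_injOn, card_range]
  intro i hi j hj hij
  have hi' : i < m := by simpa using hi
  have hj' : j < m := by simpa using hj
  simp only at hij
  split_ifs at hij with h1 h2 h2
  · exact haa i hi' j hj' hij
  · exact absurd hij (hab i hi' j hj')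
  · exact absurd hij.symm (hab j hj' i hi')
  · exact hbb i hi' j hj' hij

theorem a_mem_red (a b : ℕ → ℕ) (m : ℕ) (w : Finset ℕ) (i : ℕ) (hi : i < m)
    (haa : ∀ i < m, ∀ j < m, a i = a j → i = j)
    (hab : ∀ i < m, ∀ j < m, a i ≠ b j) : a i ∈ red a b m w ↔ i ∈ w := by
  unfold red
  rw [mem_image]
  constructor
  · rintro ⟨j, hj, hij⟩
    have hj' : j < m := by simpa using hj
    split_ifs at hij with h1
    · rw [← haa j hj' i hi hij]; exact h1
    · exact absurd hij.symm (hab i hi j hj')
  · intro h
    exact ⟨i, by simpa using hi, by simp [h]⟩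

theorem b_mem_red (a b : ℕ → ℕ) (m : ℕ) (w : Finset ℕ) (i : ℕ) (hi : i < m)
    (hbb : ∀ i < m, ∀ j < m, b i = b j → i = j)
    (hab : ∀ i < m, ∀ j < m, a i ≠ b j) : b i ∈ red a b m w ↔ i ∉ w := by
  unfold red
  rw [mem_image]
  constructor
  · rintro ⟨j, hj, hij⟩
    have hj' : j < m := by simpa using hj
    split_ifs at hij with h1
    · exact absurd hij (hab j hj' i hi)
    · rw [← hbb j hj' i hi hij]; exact h1
  · intro h
    exact ⟨i, by simpa using hi, by simp [h]⟩

/-- The coins that the edge `A` looks at. -/
def touch (a b : ℕ → ℕ) (m : ℕ) (A : Finset ℕ) : Finset ℕ :=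
  (range m).filter (fun i => a i ∈ A ∨ b i ∈ A)

/-- Outcomes of the coins for which `A` is monochromatic. -/
def mono (a b : ℕ → ℕ) (m : ℕ) (A : Finset ℕ) : Finset (Finset ℕ) :=
  (range m).powerset.filter (fun w => A ⊆ red a b m w ∨ Disjoint A (red a b m w))

theorem core (F : Finset (Finset ℕ)) (n : ℕ) (D : ℝ)
    (hF : ∀ A ∈ F, A.card = n)
    (hdeg : ∀ v : ℕ, ((F.filter (fun A => v ∈ A)).card : ℝ) ≤ D)
    (hn : 4 ≤ n)
    (hD : 4 * (4 / 2 ^ n) * (4 * n * D) ≤ 1) :
    ∃ R : Finset ℕ, R ⊆ F.biUnion id ∧
      R.card = (F.biUnion id).card / 2 ∧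
      ∀ A ∈ F, (A ∩ R).Nonempty ∧ ¬ A ⊆ R := by
  classical
  set V := F.biUnion id with hV
  set m := V.card / 2 with hm
  obtain ⟨a, b, z, haV, hbV, haa, hbb, hab, hz⟩ := pairing V m hm
  have hsub : ∀ A ∈ F, A ⊆ V := fun A hA => subset_biUnion_of_mem id hA
  have hD0 : 0 ≤ D := le_trans (Nat.cast_nonneg _) (hdeg 0)
  -- dependency neighbourhoods
  set N : Finset ℕ → Finset (Finset ℕ) := fun A =>
    F.filter (fun B => ¬ Disjoint (touch a b m B) (touch a b m A)) with hN
  have htouch_card : ∀ A ∈ F, ((touch a b m A).card : ℝ) ≤ 2 * n := by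
    intro A hA
    have h1 : (touch a b m A).card ≤ ((range m).filter (fun i => a i ∈ A)).card +
        ((range m).filter (fun i => b i ∈ A)).card := by
      unfold touch
      rw [filter_or]
      exact card_union_le _ _
    have h2 : ((range m).filter (fun i => a i ∈ A)).card ≤ A.card := by
      apply card_le_card_of_injOn a
      · intro i hi; exact (mem_filter.1 hi).2
      · intro i hi j hj hij
        have hi' := mem_range.1 (mem_filter.1 hi).1
        have hj' := mem_range.1 (mem_filter.1 hj).1
        exact haa i hi' j hj' hij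
    have h3 : ((range m).filter (fun i => b i ∈ A)).card ≤ A.card := by
      apply card_le_card_of_injOn b
      · intro i hi; exact (mem_filter.1 hi).2
      · intro i hi j hj hij
        have hi' := mem_range.1 (mem_filter.1 hi).1
        have hj' := mem_range.1 (mem_filter.1 hj).1
        exact hbb i hi' j hj' hij
    rw [hF A hA] at h2 h3
    have h4 : (touch a b m A).card ≤ 2 * n := by omega
    exact_mod_cast h4
  have hNcard : ∀ A ∈ F, ((N A).card : ℝ) ≤ 4 * n * D := by
    intro A hA
    have hsubN : N A ⊆ (touch a b m A).biUnion (fun i =>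
        F.filter (fun B => a i ∈ B) ∪ F.filter (fun B => b i ∈ B)) := by
      intro B hB
      have hB' := mem_filter.1 hB
      obtain ⟨i, hiB, hiA⟩ := Finset.not_disjoint_iff.1 hB'.2
      refine mem_biUnion.2 ⟨i, hiA, ?_⟩
      rcases (mem_filter.1 hiB).2 with h | h
      · exact mem_union_left _ (mem_filter.2 ⟨hB'.1, h⟩)
      · exact mem_union_right _ (mem_filter.2 ⟨hB'.1, h⟩)
    have h1 : (N A).card ≤ ∑ i ∈ touch a b m A,
        ((F.filter (fun B => a i ∈ B)).card + (F.filter (fun B => b i ∈ B)).card) := by
      refine (card_le_card hsubN).trans (card_biUnion_le.trans ?_)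
      exact sum_le_sum (fun i _ => card_union_le _ _)
    have h2 : ((N A).card : ℝ) ≤ ∑ i ∈ touch a b m A,
        (((F.filter (fun B => a i ∈ B)).card : ℝ) + ((F.filter (fun B => b i ∈ B)).card : ℝ)) := by
      exact_mod_cast h1
    have h3 : ∑ i ∈ touch a b m A,
        (((F.filter (fun B => a i ∈ B)).card : ℝ) + ((F.filter (fun B => b i ∈ B)).card : ℝ))
        ≤ (touch a b m A).card * (2 * D) := by
      rw [← nsmul_eq_mul]
      apply sum_le_card_nsmul
      intro i _
      have := hdeg (a i)
      have := hdeg (b i)
      linarith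
    have h4 := htouch_card A hA
    calc ((N A).card : ℝ) ≤ (touch a b m A).card * (2 * D) := h2.trans h3
      _ ≤ (2 * n) * (2 * D) := mul_le_mul_of_nonneg_right h4 (by linarith)
      _ = 4 * n * D := by ring
  have hlll := lll (range m).powerset ⟨∅, by simp⟩ (mono a b m) F N (4 / 2 ^ n) (4 * n * D)
    (by positivity) (by
      have h16 : (16 : ℝ) ≤ 2 ^ n := by
        calc (16 : ℝ) = 2 ^ 4 := by norm_num
          _ ≤ 2 ^ n := pow_le_pow_right₀ (by norm_num) hn
      have hpos : (0 : ℝ) < 2 ^ n := by positivity
      rw [mul_div_assoc', div_lt_one hpos]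
      linarith) hNcard hD ?_
  · obtain ⟨w, hw⟩ := hlll
    have hw' := mem_filter.1 hw
    refine ⟨red a b m w, ?_, card_red a b m w haa hbb hab, ?_⟩
    · intro v hv
      unfold red at hv
      obtain ⟨i, hi, rfl⟩ := mem_image.1 hv
      have hi' := mem_range.1 hi
      split_ifs
      · exact haV i hi'
      · exact hbV i hi'
    · intro A hA
      have h1 := hw'.2 A hA
      unfold mono at h1
      rw [mem_filter, not_and, not_or] at h1
      have h2 := h1 hw'.1
      exact ⟨Finset.not_disjoint_iff_nonempty_inter.1 h2.2, h2.1⟩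
  · -- independence
    intro A hA S hSF hdis hAS
    set E := good (range m).powerset (mono a b m) S with hE
    set T := touch a b m A with hT
    have hTm : T ⊆ range m := filter_subset _ _
    have hinv : ∀ w ∈ E, ∀ U ⊆ T, symmDiff w U ∈ E := by
      intro w hw U hU
      have hw' := mem_filter.1 hw
      have hwm := mem_powerset.1 hw'.1
      have hmem : symmDiff w U ∈ (range m).powerset := by
        rw [mem_powerset]
        intro i hi
        rw [mem_symmDiff] at hi
        rcases hi with hi | hi
        · exact hwm hi.1
        · exact hTm (hU hi.1)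
      refine mem_filter.2 ⟨hmem, ?_⟩
      intro B hB hbad
      apply hw'.2 B hB
      have hBF := hSF hB
      have hBN : B ∉ N A := Finset.disjoint_left.1 hdis hB
      have hBT : Disjoint (touch a b m B) T := by
        by_contra hcon
        exact hBN (mem_filter.2 ⟨hBF, hcon⟩)
      have hiff : ∀ i < m, (a i ∈ B ∨ b i ∈ B) → (i ∈ symmDiff w U ↔ i ∈ w) := by
        intro i hi hiB
        have hiT : i ∉ U := by
          intro hiU
          exact (Finset.disjoint_left.1 hBT) (mem_filter.2 ⟨mem_range.2 hi, hiB⟩) (hU hiU)
        rw [mem_symmDiff]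
        tauto
      have hred : ∀ v ∈ B, (v ∈ red a b m (symmDiff w U) ↔ v ∈ red a b m w) := by
        intro v hv
        constructor
        · intro hvr
          have hvr' := hvr
          unfold red at hvr'
          obtain ⟨i, hi, hiv⟩ := mem_image.1 hvr'
          have hi' := mem_range.1 hi
          split_ifs at hiv with hiw
          · subst hiv
            rw [a_mem_red a b m w i hi' haa hab]
            exact (hiff i hi' (Or.inl hv)).1 hiw
          · subst hiv
            rw [b_mem_red a b m w i hi' hbb hab]
            exact fun h => hiw ((hiff i hi' (Or.inr hv)).2 h)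
        · intro hvr
          have hvr' := hvr
          unfold red at hvr'
          obtain ⟨i, hi, hiv⟩ := mem_image.1 hvr'
          have hi' := mem_range.1 hi
          split_ifs at hiv with hiw
          · subst hiv
            rw [a_mem_red a b m _ i hi' haa hab]
            exact (hiff i hi' (Or.inl hv)).2 hiw
          · subst hiv
            rw [b_mem_red a b m _ i hi' hbb hab]
            exact fun h => hiw ((hiff i hi' (Or.inr hv)).1 h)
      unfold mono at hbad ⊢
      rw [mem_filter] at hbad ⊢
      refine ⟨hw'.1, ?_⟩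
      rcases hbad.2 with h | h
      · left
        intro v hv
        exact (hred v hv).1 (h hv)
      · right
        rw [Finset.disjoint_left] at h ⊢
        intro v hv hvr
        exact h hv ((hred v hv).2 hvr)
    by_cases hfull : ∃ i < m, a i ∈ A ∧ b i ∈ A
    · obtain ⟨i, hi, hai, hbi⟩ := hfull
      have hempty : E.filter (fun w => w ∈ mono a b m A) = ∅ := by
        rw [filter_eq_empty_iff]
        intro w _ hwA
        rcases (mem_filter.1 hwA).2 with h | h
        · exact (b_mem_red a b m w i hi hbb hab).1 (h hbi)
            ((a_mem_red a b m w i hi haa hab).1 (h hai))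
        · rw [Finset.disjoint_left] at h
          by_cases hiw : i ∈ w
          · exact h hai ((a_mem_red a b m w i hi haa hab).2 hiw)
          · exact h hbi ((b_mem_red a b m w i hi hbb hab).2 hiw)
      rw [hempty]
      simp only [card_empty, Nat.cast_zero]
      exact mul_nonneg (by positivity) (Nat.cast_nonneg _)
    · have hnf : ∀ i < m, a i ∈ A → b i ∉ A := fun i hi h1 h2 => hfull ⟨i, hi, h1, h2⟩
      -- |A| ≤ |T| + 1
      have hcardT : n ≤ T.card + 1 := by
        rw [← hF A hA]
        have hsubA : A ⊆ insert z (T.image (fun i => if a i ∈ A then a i else b i)) := by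
          intro v hv
          rcases hz v (hsub A hA hv) with rfl | ⟨i, hi, rfl | rfl⟩
          · exact mem_insert_self _ _
          · apply mem_insert_of_mem
            refine mem_image.2 ⟨i, mem_filter.2 ⟨mem_range.2 hi, Or.inl hv⟩, ?_⟩
            simp [hv]
          · apply mem_insert_of_mem
            refine mem_image.2 ⟨i, mem_filter.2 ⟨mem_range.2 hi, Or.inr hv⟩, ?_⟩
            have : a i ∉ A := fun h => hnf i hi h hv
            simp [this]
        calc A.card ≤ _ := card_le_card hsubA
          _ ≤ (T.image (fun i => if a i ∈ A then a i else b i)).card + 1 := card_insert_le _ _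
          _ ≤ T.card + 1 := Nat.add_le_add_right card_image_le 1
      set f1 := T.filter (fun i => a i ∈ A) with hf1
      set f2 := T.filter (fun i => b i ∈ A) with hf2
      have hcov : E.filter (fun w => w ∈ mono a b m A) ⊆
          E.filter (fun w => w ∩ T = f1) ∪ E.filter (fun w => w ∩ T = f2) := by
        intro w hw
        have hw' := mem_filter.1 hw
        rcases (mem_filter.1 hw'.2).2 with h | h
        · apply mem_union_left
          refine mem_filter.2 ⟨hw'.1, ?_⟩
          ext i
          rw [mem_inter, hf1, mem_filter]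
          constructor
          · rintro ⟨hiw, hiT⟩
            refine ⟨hiT, ?_⟩
            have hiT' := mem_filter.1 hiT
            have hi := mem_range.1 hiT'.1
            rcases hiT'.2 with h1 | h1
            · exact h1
            · exact absurd hiw ((b_mem_red a b m w i hi hbb hab).1 (h h1))
          · rintro ⟨hiT, hia⟩
            have hiT' := mem_filter.1 hiT
            have hi := mem_range.1 hiT'.1
            exact ⟨(a_mem_red a b m w i hi haa hab).1 (h hia), hiT⟩
        · apply mem_union_right
          refine mem_filter.2 ⟨hw'.1, ?_⟩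
          rw [Finset.disjoint_left] at h
          ext i
          rw [mem_inter, hf2, mem_filter]
          constructor
          · rintro ⟨hiw, hiT⟩
            refine ⟨hiT, ?_⟩
            have hiT' := mem_filter.1 hiT
            have hi := mem_range.1 hiT'.1
            rcases hiT'.2 with h1 | h1
            · exact absurd ((a_mem_red a b m w i hi haa hab).2 hiw) (h h1)
            · exact h1
          · rintro ⟨hiT, hib⟩
            have hiT' := mem_filter.1 hiT
            have hi := mem_range.1 hiT'.1
            refine ⟨?_, hiT⟩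
            by_contra hiw
            exact h hib ((b_mem_red a b m w i hi hbb hab).2 hiw)
      have hc1 := flip_count E T f1 hinv
      have hc2 := flip_count E T f2 hinv
      have hcc : 2 ^ T.card * (E.filter (fun w => w ∈ mono a b m A)).card ≤ 2 * E.card := by
        have h1 := (card_le_card hcov).trans (card_union_le _ _)
        calc 2 ^ T.card * (E.filter (fun w => w ∈ mono a b m A)).card
            ≤ 2 ^ T.card * ((E.filter (fun w => w ∩ T = f1)).card +
              (E.filter (fun w => w ∩ T = f2)).card) := Nat.mul_le_mul_left _ h1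
          _ = 2 ^ T.card * (E.filter (fun w => w ∩ T = f1)).card +
              2 ^ T.card * (E.filter (fun w => w ∩ T = f2)).card := by ring
          _ ≤ E.card + E.card := Nat.add_le_add hc1 hc2
          _ = 2 * E.card := by ring
      have hpow : 2 ^ n ≤ 2 * 2 ^ T.card := by
        calc 2 ^ n ≤ 2 ^ (T.card + 1) := Nat.pow_le_pow_right (by norm_num) hcardT
          _ = 2 * 2 ^ T.card := by ring
      have hfin : 2 ^ n * (E.filter (fun w => w ∈ mono a b m A)).card ≤ 4 * E.card := by
        calc 2 ^ n * (E.filter (fun w => w ∈ mono a b m A)).card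
            ≤ (2 * 2 ^ T.card) * (E.filter (fun w => w ∈ mono a b m A)).card :=
              Nat.mul_le_mul_right _ hpow
          _ = 2 * (2 ^ T.card * (E.filter (fun w => w ∈ mono a b m A)).card) := by ring
          _ ≤ 2 * (2 * E.card) := Nat.mul_le_mul_left _ hcc
          _ = 4 * E.card := by ring
      have hfinR : (2 : ℝ) ^ n * ((E.filter (fun w => w ∈ mono a b m A)).card : ℝ) ≤
          4 * (E.card : ℝ) := by exact_mod_cast hfin
      have hpos : (0 : ℝ) < 2 ^ n := by positivity
      rw [div_mul_eq_mul_div, le_div_iff₀ hpos]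
      linarith

end Pool.Agent.Lib.MP_0dd31c_co.Core
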